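import Mathlib

set_option autoImplicit false

namespace Pool.Agent.Results.MP_8a0948_an.Iff

open Filter Topology BoundedContinuousFunction

/-- `ℓ_∞`. -/
abbrev Linf : Type := BoundedContinuousFunction ℕ ℝ

/-- Indicator of `A` as an element of `ℓ_∞`. -/
noncomputable def ind (A : Set ℕ) : Linf :=
  ofNormedAddCommGroupDiscrete (A.indicator fun _ => (1 : ℝ)) 1 fun n => by
    by_cases h : n ∈ A <;> simp [h]

/-- `μ ∈ ℓ_∞^*` is an `ε`-strong `Q`-measure. -/
structure EpsQ (ε : ℝ) (μ : StrongDual ℝ Linf) : Prop where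
  range : ∀ A, 0 ≤ μ (ind A) ∧ μ (ind A) ≤ 1
  fin : ∀ A : Set ℕ, A.Finite → μ (ind A) = 0
  sel : ∀ A : ℕ → Set ℕ, (∀ n, (A n).Finite) → Pairwise (Function.onFun Disjoint A) →
    ⋃ n, A n = Set.univ → ∃ S : Set ℕ, (∀ n, (S ∩ A n).Subsingleton) ∧ ε ≤ μ (ind S)

section
variable {X : Type} [NormedAddCommGroup X] [NormedSpace ℝ X]

/-- The adjoint `T^* : X^* → ℓ_∞`, `φ ↦ (φ x_n)_n`. -/
noncomputable def adj (x : ℕ → X) (hx : ∀ n, ‖x n‖ ≤ 1) : StrongDual ℝ X →L[ℝ] Linf :=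
  LinearMap.mkContinuous
    { toFun := fun φ => ofNormedAddCommGroupDiscrete (fun n => φ (x n)) ‖φ‖ fun n =>
        φ.unit_le_opNorm _ (hx n)
      map_add' := fun _ _ => by ext n; rfl
      map_smul' := fun _ _ => by ext n; rfl } 1
    fun φ => by
      rw [one_mul]
      exact (norm_le (norm_nonneg φ)).2 fun n => φ.unit_le_opNorm _ (hx n)

/-- `μ`-limit `T^{**} μ`. -/
noncomputable def muLim (μ : StrongDual ℝ Linf) (x : ℕ → X) (hx : ∀ n, ‖x n‖ ≤ 1) :
    StrongDual ℝ (StrongDual ℝ X) := μ.comp (adj x hx)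

end

/-- The statement of Q1. -/
def Q1 : Prop := ∀ (ε : ℝ), 0 < ε → ∀ μ : StrongDual ℝ Linf, EpsQ ε μ →
  ∀ (X : Type) [NormedAddCommGroup X] [NormedSpace ℝ X] [CompleteSpace X] (x : ℕ → X)
    (hx : ∀ n, ‖x n‖ ≤ 1), (∀ z : X, Tendsto (fun n => ‖z + x n‖) atTop (𝓝 (1 + ‖z‖))) →
    ∀ z : X, ‖z‖ + ε * ‖muLim μ x hx‖ ≤ ‖NormedSpace.inclusionInDoubleDual ℝ X z + muLim μ x hx‖

noncomputable def avg (b : ℕ → ℝ) (k : ℕ) : ℝ :=
  (∑ j ∈ Finset.range (k + 1), b (k * k + j)) / (k + 1)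

lemma avg_mem {b : ℕ → ℝ} {l u : ℝ} (k : ℕ) (h : ∀ j, l ≤ b (k * k + j) ∧ b (k * k + j) ≤ u) :
    l ≤ avg b k ∧ avg b k ≤ u := by
  have p : (0 : ℝ) < k + 1 := by positivity
  have a := Finset.sum_le_sum fun j (_ : j ∈ Finset.range (k + 1)) => (h j).1
  have c := Finset.sum_le_sum fun j (_ : j ∈ Finset.range (k + 1)) => (h j).2
  simp only [Finset.sum_const, Finset.card_range, nsmul_eq_mul] at a c
  push_cast at a c
  rw [avg, le_div_iff₀ p, div_le_iff₀ p]
  constructor <;> linarith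

lemma avg_abs (b : Linf) (k : ℕ) : -‖b‖ ≤ avg b k ∧ avg b k ≤ ‖b‖ :=
  avg_mem k fun _ => abs_le.1 (b.norm_coe_le_norm _)

noncomputable def lam (b : Linf) : ℝ := limUnder (hyperfilter ℕ : Filter ℕ) (avg b)

lemma lam_t (b : Linf) : Tendsto (avg b) (hyperfilter ℕ : Filter ℕ) (𝓝 (lam b)) := by
  obtain ⟨a, -, ha⟩ := (isCompact_Icc (a := -‖b‖) (b := ‖b‖)).ultrafilter_le_nhds
    ((hyperfilter ℕ).map (avg b)) (by
      rw [Ultrafilter.coe_map, le_principal_iff, mem_map]
      exact univ_mem' fun k => avg_abs b k)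
  exact tendsto_nhds_limUnder ⟨a, ha⟩

lemma lam_mem (b : Linf) {l u : ℝ} (h : ∀ k, l ≤ avg b k ∧ avg b k ≤ u) :
    l ≤ lam b ∧ lam b ≤ u :=
  ⟨ge_of_tendsto' (lam_t b) fun k => (h k).1, le_of_tendsto' (lam_t b) fun k => (h k).2⟩

lemma lam_eq (b : Linf) {a : ℝ} (h : Tendsto (avg b) atTop (𝓝 a)) : lam b = a :=
  tendsto_nhds_unique (lam_t b) (h.mono_left (Nat.cofinite_eq_atTop ▸ hyperfilter_le_cofinite))

noncomputable def Lam : StrongDual ℝ Linf :=
  LinearMap.mkContinuous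
    { toFun := lam
      map_add' := fun b c => tendsto_nhds_unique (lam_t (b + c))
        (((lam_t b).add (lam_t c)).congr fun k => by
          simp [avg, Finset.sum_add_distrib, add_div])
      map_smul' := fun r b => tendsto_nhds_unique (lam_t (r • b))
        (((lam_t b).const_mul r).congr fun k => by
          simp [avg, ← Finset.mul_sum, mul_div_assoc]) } 1
    fun b => by
      rw [one_mul]
      exact abs_le.2 (lam_mem b (avg_abs b))

abbrev K : Type := ∀ k : ℕ, Fin (k + 2)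

def jj (n : ℕ) : Fin (n.sqrt + 2) := Fin.ofNat _ (n - n.sqrt * n.sqrt)

noncomputable def xx (n : ℕ) : C(K, ℝ) :=
  ⟨fun t => if t n.sqrt = jj n then 1 else -1,
    (continuous_of_discreteTopology (f := fun c : Fin (n.sqrt + 2) =>
      if c = jj n then (1 : ℝ) else -1)).comp (continuous_apply n.sqrt)⟩

lemma xx_le (n : ℕ) : ‖xx n‖ ≤ 1 :=
  (ContinuousMap.norm_le _ zero_le_one).2 fun t => by
    change ‖if t n.sqrt = jj n then (1 : ℝ) else -1‖ ≤ 1
    split_ifs <;> simp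

lemma upd (t : K) (c : ∀ n : ℕ, Fin (n.sqrt + 2)) :
    Tendsto (fun n : ℕ => Function.update t n.sqrt (c n)) atTop (𝓝 t) := by
  refine tendsto_pi_nhds.2 fun i => tendsto_const_nhds.congr' ?_
  filter_upwards [eventually_ge_atTop ((i + 1) * (i + 1))] with n hn
  have := Nat.le_sqrt.2 hn
  rw [Function.update_of_ne (by omega)]

lemma lorth (z : C(K, ℝ)) : Tendsto (fun n => ‖z + xx n‖) atTop (𝓝 (1 + ‖z‖)) := by
  obtain ⟨t, -, ht⟩ := isCompact_univ.exists_isMaxOn Set.univ_nonempty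
    (z.continuous.norm.continuousOn (s := Set.univ))
  have e : ‖z‖ = |z t| := le_antisymm
    ((ContinuousMap.norm_le _ (abs_nonneg _)).2 fun s => ht (Set.mem_univ s))
    (z.norm_coe_le_norm t)
  have key : ∀ (σ : ℝ) (c : ∀ n : ℕ, Fin (n.sqrt + 2)), |z t + σ| = 1 + ‖z‖ →
      (∀ n, (if c n = jj n then (1 : ℝ) else -1) = σ) →
      Tendsto (fun n => ‖z + xx n‖) atTop (𝓝 (1 + ‖z‖)) := by
    intro σ c h hc
    have l := (((z.continuous.tendsto t).comp (upd t c)).add_const σ).abs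
    rw [h] at l
    refine tendsto_of_tendsto_of_tendsto_of_le_of_le l tendsto_const_nhds (fun n => ?_) fun n => ?_
    · refine le_trans (le_of_eq ?_) ((z + xx n).norm_coe_le_norm (Function.update t n.sqrt (c n)))
      change _ = |z _ + if Function.update t n.sqrt (c n) n.sqrt = jj n then (1 : ℝ) else -1|
      rw [Function.update_self, hc]
      rfl
    · have := norm_add_le z (xx n)
      have := xx_le n
      change ‖z + xx n‖ ≤ 1 + ‖z‖
      linarith
  rcases le_total 0 (z t) with g | g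
  · refine key 1 jj ?_ fun n => if_pos rfl
    rw [e, abs_of_nonneg g, abs_of_nonneg (by linarith)]; ring
  · refine key (-1) (fun n => jj n + 1) ?_ fun n => if_neg (by simp)
    rw [e, abs_of_nonpos g, abs_of_nonpos (by linarith)]; ring

lemma blk (k : ℕ) : ‖∑ j ∈ Finset.range (k + 1), (xx (k * k + j) + 1)‖ ≤ 2 := by
  refine (ContinuousMap.norm_le _ zero_le_two).2 fun t => ?_
  have h : ∀ j ∈ Finset.range (k + 1), (xx (k * k + j) + 1) t = if (t k).val = j then 2 else 0 := by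
    intro j hj
    have hj' := Finset.mem_range.1 hj
    have s : (k * k + j).sqrt = k := Nat.sqrt_add_eq k (by omega)
    have v : (jj (k * k + j)).val = j := by
      change (k * k + j - (k * k + j).sqrt * (k * k + j).sqrt) % ((k * k + j).sqrt + 2) = j
      rw [s, Nat.add_sub_cancel_left, Nat.mod_eq_of_lt (by omega)]
    have w : (t (k * k + j).sqrt).val = (t k).val := by rw [s]
    change (if t (k * k + j).sqrt = jj (k * k + j) then (1 : ℝ) else -1) + 1 = _
    simp only [Fin.ext_iff, v, w]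
    split_ifs <;> norm_num
  rw [ContinuousMap.sum_apply, Finset.sum_congr rfl h, Finset.sum_ite_eq]
  split_ifs <;> simp

lemma lam_adj (φ : StrongDual ℝ C(K, ℝ)) : lam (adj xx xx_le φ) = -φ 1 := by
  apply lam_eq
  rw [tendsto_iff_norm_sub_tendsto_zero]
  refine squeeze_zero (fun _ => norm_nonneg _) (fun k => ?_)
    (by simpa using tendsto_one_div_add_atTop_nhds_zero_nat.const_mul (‖φ‖ * 2))
  have p : (0 : ℝ) < k + 1 := by positivity
  have e : avg (adj xx xx_le φ) k - -φ 1 =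
      φ (∑ j ∈ Finset.range (k + 1), (xx (k * k + j) + 1)) / (k + 1) := by
    have : ∀ n, adj xx xx_le φ n = φ (xx n) := fun _ => rfl
    rw [map_sum]
    simp only [avg, this, map_add, Finset.sum_add_distrib, Finset.sum_const,
      Finset.card_range, nsmul_eq_mul]
    push_cast
    field_simp
    ring
  rw [e, norm_div, Real.norm_of_nonneg p.le, div_eq_mul_inv]
  exact mul_le_mul_of_nonneg_right ((φ.le_opNorm _).trans
    (mul_le_mul_of_nonneg_left (blk k) (norm_nonneg _))) (by positivity)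

theorem result : Q1 ↔ ¬ ∃ (ε : ℝ) (μ : StrongDual ℝ Linf), 0 < ε ∧ EpsQ ε μ := by
  refine ⟨?_, fun h ε e μ q => absurd ⟨ε, μ, e, q⟩ h⟩
  rintro H ⟨ε, μ, e, q⟩
  have m0 := norm_nonneg μ
  obtain ⟨r, r0, r1, r2⟩ : ∃ r : ℝ, 0 < r ∧ r ≤ 1 / 4 ∧ r * ‖μ‖ ≤ 1 / 4 := by
    refine ⟨1 / (4 * (‖μ‖ + 1)), by positivity, ?_, ?_⟩
    · exact one_div_le_one_div_of_le (by norm_num) (by linarith)
    · rw [div_mul_eq_mul_div, div_le_iff₀ (by positivity)]
      linarith
  have ap : ∀ b, (r • μ + (1 / 2 : ℝ) • Lam) b = r * μ b + 1 / 2 * lam b := fun _ => rfl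
  have li : ∀ A, 0 ≤ lam (ind A) ∧ lam (ind A) ≤ 1 := fun A =>
    lam_mem _ fun k => avg_mem k fun j => by
      change 0 ≤ A.indicator (fun _ => (1 : ℝ)) _ ∧ A.indicator (fun _ => (1 : ℝ)) _ ≤ 1
      by_cases h : k * k + j ∈ A <;> simp [h]
  have q' : EpsQ (r * ε) (r • μ + (1 / 2 : ℝ) • Lam) := by
    refine ⟨fun A => ?_, fun A hA => ?_, fun A a b c => ?_⟩
    · rw [ap]
      have := q.range A
      have := li A
      constructor <;> nlinarith
    · have : lam (ind A) = 0 := by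
        obtain ⟨N, hN⟩ := hA.bddAbove
        refine lam_eq _ (tendsto_const_nhds.congr' ?_)
        filter_upwards [eventually_gt_atTop N] with k hk
        have := avg_mem (b := ind A) (l := 0) (u := 0) k fun j => by
          have : k * k + j ∉ A := fun h => by
            have := hN h
            have := Nat.le_mul_self k
            omega
          change 0 ≤ A.indicator (fun _ => (1 : ℝ)) _ ∧ A.indicator (fun _ => (1 : ℝ)) _ ≤ 0
          simp [this]
        exact le_antisymm this.1 this.2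
      rw [ap, q.fin A hA, this]
      simp
    · obtain ⟨S, s1, s2⟩ := q.sel A a b c
      refine ⟨S, s1, ?_⟩
      rw [ap]
      have := li S
      nlinarith
  have h := H _ (mul_pos r0 e) _ q' C(K, ℝ) xx xx_le lorth 1
  have u : ‖NormedSpace.inclusionInDoubleDual ℝ C(K, ℝ) 1 +
      muLim (r • μ + (1 / 2 : ℝ) • Lam) xx xx_le‖ ≤ 3 / 4 := by
    refine ContinuousLinearMap.opNorm_le_bound _ (by norm_num) fun φ => ?_
    change |φ 1 + (r * μ (adj xx xx_le φ) + 1 / 2 * lam (adj xx xx_le φ))| ≤ _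
    rw [lam_adj]
    have a : |φ 1| ≤ ‖φ‖ := φ.unit_le_opNorm 1 (by simp)
    have b : ‖adj xx xx_le φ‖ ≤ ‖φ‖ :=
      (norm_le (norm_nonneg φ)).2 fun n => φ.unit_le_opNorm _ (xx_le n)
    have c : |μ (adj xx xx_le φ)| ≤ ‖μ‖ * ‖φ‖ :=
      (μ.le_opNorm _).trans (mul_le_mul_of_nonneg_left b m0)
    have d := mul_le_mul_of_nonneg_right r2 (norm_nonneg φ)
    rw [abs_le] at a c ⊢
    constructor <;> nlinarith [a.1, a.2, mul_le_mul_of_nonneg_left c.1 r0.le,
      mul_le_mul_of_nonneg_left c.2 r0.le]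
  have := mul_nonneg (mul_pos r0 e).le (norm_nonneg (muLim (r • μ + (1 / 2 : ℝ) • Lam) xx xx_le))
  rw [norm_one] at h
  linarith

end Pool.Agent.Results.MP_8a0948_an.Iff
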